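import Pool.Agent.TOYV.Card

/-!
Elementary facts about one symbol `c` in a trilinear form.
-/

set_option linter.unusedSectionVars false
set_option linter.unusedVariables false

namespace Pool.Agent.TOYV

open Pool.Agent.ESL Finset
open scoped Classical

variable {V : Type} [AddCommGroup V] [Module (ZMod 2) V] [Fintype V]

namespace Tri

variable (T : Tri V)

theorem vx_card (x : V) : (T.vx x).card * 4 ^ T.rho x = 2 ^ fr V := by
  rw [← card_pow]; exact (card_proof T).1 x

theorem qx_card (x : V) : (T.qx x).card = 4 ^ T.rho x := (card_proof T).2.1 x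

theorem qx_iff (x : V) (c : D V) : c ∈ T.qx x ↔ ∀ v, T.t x v = 0 → c v = 0 := by
  rw [(card_proof T).2.2.1 x c]; simp

theorem inter_card (x y : V) :
    (T.vx x ∩ T.vx y).card * 2 ^ (T.rho x + T.rho y + T.rho (x + y)) = 2 ^ fr V := by
  rw [← card_pow]; exact (card_proof T).2.2.2 x y

theorem zero_right (x : V) : T.t x 0 = 0 := map_zero _

theorem zero_left (x : V) : T.t 0 x = 0 := by rw [T.symm, map_zero]

theorem rho_zero : T.rho 0 = 0 := by
  have h := T.qx_card 0
  have e : T.qx 0 = {0} := by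
    ext c
    rw [mem_qx, mem_singleton]
    constructor
    · rintro ⟨y, rfl⟩; exact T.zero_left y
    · rintro rfl; exact ⟨0, T.zero_left 0⟩
  rw [e, card_singleton] at h
  by_contra h0
  have : 4 ^ 1 ≤ 4 ^ T.rho 0 := Nat.pow_le_pow_right (by norm_num) (by omega)
  omega

theorem rho_pos {x : V} (hx : x ≠ 0) : 1 ≤ T.rho x := by
  by_contra h
  have h0 : T.rho x = 0 := by omega
  have h1 := T.qx_card x
  rw [h0, pow_zero, card_eq_one] at h1
  obtain ⟨c, hc⟩ := h1
  apply hx
  apply T.nondeg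
  intro y
  have m1 : T.t x y ∈ T.qx x := by simp
  have m2 : (0 : D V) ∈ T.qx x := by
    rw [mem_qx]; exact ⟨0, T.zero_right x⟩
  rw [hc, mem_singleton] at m1 m2
  rw [m1, m2]

/-- membership in `V_x` is symmetric -/
theorem comm {x y : V} : T.t x y = 0 ↔ T.t y x = 0 := by rw [T.symm]

theorem tadd (x y z : V) : T.t x (y + z) = T.t x y + T.t x z := map_add _ _ _

theorem tadd' (x y z : V) : T.t (x + y) z = T.t x z + T.t y z := by
  rw [T.symm, map_add, T.symm z x, T.symm z y]

/-- the exponent inequality -/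
theorem trip_le (x y : V) : T.rho x + T.rho y + T.rho (x + y) ≤ fr V := by
  have h := T.inter_card x y
  have h0 : 0 < (T.vx x ∩ T.vx y).card := card_pos.2 ⟨0, by simp [zero_right]⟩
  by_contra hc
  have h1 : 2 ^ fr V < 2 ^ (T.rho x + T.rho y + T.rho (x + y)) := Nat.pow_lt_pow_right (by norm_num) (by omega)
  have h2 := Nat.mul_le_mul_right (2 ^ (T.rho x + T.rho y + T.rho (x + y))) h0
  rw [h] at h2
  omega

theorem trip_eq {x y : V} (h : ∀ u, T.t x u = 0 → T.t y u = 0 → u = 0) :
    T.rho x + T.rho y + T.rho (x + y) = fr V := by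
  have h1 := T.inter_card x y
  have h2 : T.vx x ∩ T.vx y = {0} := by
    ext u
    rw [mem_inter, mem_vx, mem_vx, mem_singleton]
    constructor
    · rintro ⟨a, b⟩; exact h u a b
    · rintro rfl; exact ⟨T.zero_right x, T.zero_right y⟩
  rw [h2, card_singleton, one_mul] at h1
  exact Nat.pow_right_injective (le_refl 2) h1

theorem trip_eq' {x y : V} (h : T.rho x + T.rho y + T.rho (x + y) = fr V) {u : V}
    (h1 : T.t x u = 0) (h2 : T.t y u = 0) : u = 0 := by
  have h3 := T.inter_card x y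
  rw [h] at h3
  have h4 : (T.vx x ∩ T.vx y).card = 1 := by
    have : 0 < 2 ^ fr V := by positivity
    exact Nat.eq_of_mul_eq_mul_right this (by rw [h3, one_mul])
  rw [card_eq_one] at h4
  obtain ⟨a, ha⟩ := h4
  have m1 : u ∈ T.vx x ∩ T.vx y := by simp [h1, h2]
  have m2 : (0 : V) ∈ T.vx x ∩ T.vx y := by simp [zero_right]
  rw [ha, mem_singleton] at m1 m2
  rw [m1, m2]

/-- two commuting distinct non-zero elements -/
theorem trip_comm {x y : V} (hx : x ≠ 0) (hy : y ≠ 0) (hxy : x ≠ y) (h : T.t x y = 0) :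
    T.rho x + T.rho y + T.rho (x + y) + 2 ≤ fr V := by
  have h3 := T.inter_card x y
  have hyx : T.t y x = 0 := T.comm.1 h
  have hsub : ({0, x, y, x + y} : Finset V) ⊆ T.vx x ∩ T.vx y := by
    intro u hu
    simp only [mem_insert, mem_singleton] at hu
    rw [mem_inter, mem_vx, mem_vx]
    rcases hu with rfl | rfl | rfl | rfl
    · exact ⟨T.zero_right _, T.zero_right _⟩
    · exact ⟨T.alt _, hyx⟩
    · exact ⟨h, T.alt _⟩
    · rw [tadd, tadd, T.alt, T.alt, h, hyx]; simp
  have hc : ({0, x, y, x + y} : Finset V).card = 4 := by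
    have e1 : x + y ≠ 0 := fun e => hxy (eq_of_add e)
    have e2 : x + y ≠ x := fun e => hy (by simpa using e)
    have e3 : x + y ≠ y := fun e => hx (by simpa using e)
    rw [card_insert_of_notMem, card_insert_of_notMem, card_insert_of_notMem, card_singleton]
    · rw [mem_singleton]; exact fun e => e3 e.symm
    · rw [mem_insert, mem_singleton]
      rintro (e | e)
      · exact hxy e
      · exact e2 e.symm
    · rw [mem_insert, mem_insert, mem_singleton]
      rintro (e | e | e)
      · exact hx e.symm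
      · exact hy e.symm
      · exact e1 e.symm
  have h4 := card_le_card hsub
  rw [hc] at h4
  by_contra hcon
  have h5 : 2 ^ fr V < 2 ^ (T.rho x + T.rho y + T.rho (x + y) + 2) := Nat.pow_lt_pow_right (by norm_num) (by omega)
  rw [pow_add] at h5
  have h6 : 4 * 2 ^ (T.rho x + T.rho y + T.rho (x + y)) ≤ 2 ^ fr V := by
    rw [← h3]
    exact Nat.mul_le_mul_right _ h4
  omega

/-- translation by `a` on a set closed under it -/
theorem sum_shift {β : Type} [AddCommMonoid β] (A : Finset V) (a : V) (hA : ∀ y ∈ A, y + a ∈ A) (f : V → β) :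
    ∑ y ∈ A, f (y + a) = ∑ y ∈ A, f y := by
  apply sum_nbij' (fun y => y + a) (fun y => y + a)
  · exact hA
  · exact hA
  · intro y _; exact add_add_self' y a
  · intro y _; exact add_add_self' y a
  · intro y _; rfl

/-! ### one symbol -/

/-- slots of `c` -/
noncomputable def S (c : D V) : Finset V := univ.filter (fun x => c ∈ T.qx x)

variable {T}

theorem mem_S {c : D V} {x : V} : x ∈ T.S c ↔ ∃ y, T.t x y = c := by simp [S]

theorem mem_S_of {c : D V} {x y : V} (h : T.t x y = c) : x ∈ T.S c := mem_S.2 ⟨y, h⟩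

theorem mem_S_of' {c : D V} {x y : V} (h : T.t x y = c) : y ∈ T.S c := mem_S.2 ⟨x, by rw [T.symm, h]⟩

theorem slot_ker {c : D V} {x : V} (hx : x ∈ T.S c) {v : V} (hv : T.t x v = 0) : c v = 0 := by
  obtain ⟨y, rfl⟩ := mem_S.1 hx
  rw [T.symm', hv]; rfl

theorem slot_ker' {c : D V} {x : V} (hx : x ∈ T.S c) : c x = 0 := slot_ker hx (T.alt x)

theorem slot_ne {c : D V} (hc : c ≠ 0) {x : V} (hx : x ∈ T.S c) : x ≠ 0 := by
  rintro rfl
  obtain ⟨y, hy⟩ := mem_S.1 hx
  exact hc (by rw [← hy, T.zero_left])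

/-- common neighbour -/
theorem common {c : D V} {x y : V} (hx : x ∈ T.S c) (hy : y ∈ T.S c) : ∃ z, T.t x z = c ∧ T.t y z = c := by
  obtain ⟨a, ha⟩ := mem_S.1 hx
  obtain ⟨b, hb⟩ := mem_S.1 hy
  obtain ⟨z, h1, h2⟩ := T.link x y a b (ha.trans hb.symm)
  exact ⟨z, h1.trans ha, h2.trans ha⟩

theorem slot_add {c : D V} {z b w : V} (h1 : T.t z w = c) (h2 : T.t b w = 0) : z + b ∈ T.S c := by
  refine mem_S_of (y := w) ?_
  rw [T.tadd', h1, h2, add_zero]

end Tri

end Pool.Agent.TOYV
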