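import Pool.Agent.TOYW.Main

/-!
Linked alternating trilinear forms over `F_2` (no covering hypothesis): definitions and statements.
Problem MP_d26ff6_al.
-/

set_option linter.unusedSectionVars false
set_option linter.unusedVariables false

namespace Pool.Agent.TOYV

open Pool.Agent.ESL Finset
open scoped Classical

/-- nondegenerate alternating trilinear linked forms -/
structure Tri (V : Type) [AddCommGroup V] [Module (ZMod 2) V] where
  t : V →ₗ[ZMod 2] Fm V
  symm : ∀ x y, t x y = t y x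
  symm' : ∀ x y z, t x y z = t x z y
  alt : ∀ x, t x x = 0
  link : ∀ x y a b, t x a = t y b → ∃ z, t x z = t x a ∧ t y z = t x a
  nondeg : ∀ x, (∀ y, t x y = 0) → x = 0

/-- `D(c) = ker c` for all `c ≠ 0` -/
def Cov {V : Type} [AddCommGroup V] [Module (ZMod 2) V] (T : Tri V) : Prop :=
  ∀ c : D V, c ≠ 0 → (∃ x y, T.t x y = c) → ∀ b, c b = 0 → ∃ s a, T.t s a = c ∧ T.t s b = 0

/-- a linked form satisfies the covering hypothesis or is an orthogonal sum -/
def Stmt_dec : Prop :=
  ∀ (V : Type) [AddCommGroup V] [Module (ZMod 2) V] [Fintype V] (T : Tri V),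
    Cov T ∨ ∃ A B : Submodule (ZMod 2) V, IsCompl A B ∧ A ≠ ⊥ ∧ B ≠ ⊥ ∧
      ∀ a ∈ A, ∀ b ∈ B, T.t a b = 0

end Pool.Agent.TOYV
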