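import Pool.Agent.TOYV.Main

/-!
Quaternionic structures whose symbols are the values of a symmetric trilinear form are of
elementary type.  Problem MP_d26ff6_al.
-/

set_option autoImplicit false
set_option linter.unusedSectionVars false
set_option linter.unusedVariables false

namespace Pool.Agent.TOYV

open QS Pool.Agent.ESL Pool.Agent.ETCP Pool.Agent.ETG Pool.Agent.TOYW Finset
open Pool.Agent.Helper58.PLine (QData)

section data

variable {V Q : Type} [AddCommGroup V] [Module (ZMod 2) V] {S : QData V Q}

/-- a symmetric trilinear form whose values are the symbols -/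
structure Form (S : QData V Q) where
  t : V →ₗ[ZMod 2] Fm V
  symm : ∀ x y, t x y = t y x
  symm' : ∀ x y z, t x y z = t x z y
  eq : ∀ a b c d, S.q a b = S.q c d ↔ t a b = t c d

namespace Form

variable (F : Form S)

theorem zero_iff (a b : V) : C S a b ↔ F.t a b = 0 := by
  have h : S.q 0 0 = S.z := C.zero (S := S) 0
  unfold C
  rw [← h, F.eq, map_zero]

variable {W : Submodule (ZMod 2) V} (hW : IsCompl (rad S) W)

theorem rad_zero {a b r : V} (hr : r ∈ rad S) : F.t a b r = 0 := by
  rw [F.symm', F.symm, (F.zero_iff r a).1 (hr a)]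
  rfl

include hW in
theorem ext_val {a b c d : V} (h : ∀ v ∈ W, F.t a b v = F.t c d v) : F.t a b = F.t c d := by
  apply LinearMap.ext
  intro v
  have h1 : v ∈ rad S ⊔ W := by rw [hW.sup_eq_top]; trivial
  obtain ⟨r, hr, w, hw, rfl⟩ := Submodule.mem_sup.1 h1
  rw [map_add, map_add, F.rad_zero hr, F.rad_zero hr, h w hw]

/-- the form on a complement of the radical -/
noncomputable def tri (he : S.e = 0) : Tri W where
  t := lin (fun a : W => (F.t a).domRestrict₁₂ W W) fun a b => by
    apply LinearMap.ext
    intro x
    apply LinearMap.ext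
    intro y
    simp only [Submodule.coe_add, map_add, LinearMap.domRestrict₁₂_apply, LinearMap.add_apply]
  symm := fun x y => by
    apply LinearMap.ext
    intro z
    show F.t x y z = F.t y x z
    rw [F.symm]
  symm' := fun x y z => F.symm' x y z
  alt := fun x => by
    apply LinearMap.ext
    intro z
    show F.t x x z = 0
    rw [(F.zero_iff _ _).1 (C.self he (x : V))]
    rfl
  link := by
    intro x y a b h
    have h1 : F.t x a = F.t y b := F.ext_val hW fun v hv => LinearMap.congr_fun h ⟨v, hv⟩
    obtain ⟨z, h2, h3⟩ := S.link x a y b ((F.eq _ _ _ _).2 h1)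
    obtain ⟨w, hw⟩ := dec hW z
    have h4 : F.t x w = F.t x a := by
      rw [← F.eq, h2, S.symm (x : V) w, ← hw, S.symm z]
    have h5 : F.t y w = F.t x a := by
      rw [h1, ← F.eq, h3, S.symm (y : V) w, ← hw, S.symm z]
    refine ⟨w, ?_, ?_⟩
    · apply LinearMap.ext
      intro v
      show F.t x w v = F.t x a v
      rw [h4]
    · apply LinearMap.ext
      intro v
      show F.t y w v = F.t x a v
      rw [h5]
  nondeg := by
    intro x hx
    have h2 : (x : V) ∈ rad S := by
      intro y
      obtain ⟨w, hw⟩ := dec hW y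
      have h4 : F.t (x : V) w = F.t (x : V) 0 := F.ext_val hW fun v hv => by
        rw [map_zero]
        exact LinearMap.congr_fun (hx w) ⟨v, hv⟩
      have h3 : C S (w : V) x := by
        apply C.symm
        rw [F.zero_iff, h4, map_zero]
      show S.q x y = S.z
      rw [S.symm, hw]
      exact h3
    have h3 : (x : V) ∈ rad S ⊓ W := ⟨h2, x.2⟩
    rw [hW.inf_eq_bot, Submodule.mem_bot] at h3
    exact Subtype.ext h3

theorem tri_zero (he : S.e = 0) (a b : W) : (F.tri hW he).t a b = 0 ↔ C S (a : V) b := by
  rw [F.zero_iff]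
  constructor
  · intro h
    have h5 : F.t (a : V) b = F.t (a : V) 0 := F.ext_val hW fun v hv => by
      rw [map_zero]
      exact LinearMap.congr_fun h ⟨v, hv⟩
    rw [h5, map_zero]
  · intro h
    apply LinearMap.ext
    intro v
    show F.t a b v = 0
    rw [h]
    rfl

end Form

theorem etz_form (hm : Stmt_main) [Finite V] (he : S.e = 0) (F : Form S) : ETZ (C S) := by
  classical
  have : Fintype V := Fintype.ofFinite V
  obtain ⟨W, hW⟩ := Submodule.exists_isCompl (rad S)
  have : Fintype W := Fintype.ofFinite W
  have a_qpr : Stmt_QPR := qpr_proof qex_proof qis_proof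
  have a_qrd : Stmt_QRD := qrd_proof a_qpr
  have h1 : ETZ (C (resD S hW he)) := by
    have h := hm W (F.tri hW he)
    have e : (fun x y : W => (F.tri hW he).t x y = 0) = C (resD S hW he) := by
      funext x y
      apply propext
      rw [F.tri_zero hW he]
      rfl
    rwa [e] at h
  have h2 : ETZ (fun _ _ : rad S => True) := a_qrd _ _ fun _ _ => trivial
  let e := (Submodule.prodEquivOfIsCompl (rad S) W hW).symm
  refine a_qpr V (rad S) W (C S) (fun _ _ => True) (C (resD S hW he)) e.toAddEquiv
    (QRD_.lzT _) (lz_data rfl) ?_ h2 h1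
  intro a b
  have key : ∀ v : V, v = ((e v).1 : V) + ((e v).2 : V) := by
    intro v
    have := (Submodule.prodEquivOfIsCompl (rad S) W hW).apply_symm_apply v
    rw [Submodule.coe_prodEquivOfIsCompl'] at this
    exact this.symm
  constructor
  · intro hab
    refine ⟨trivial, ?_⟩
    have h3 : C S ((e a).1 : V) b := (e a).1.2 b
    have h4 : C S ((e a).2 : V) b := by
      have h5 := h3.add' hab
      exact h5.of_eq (w_addl (key a)) rfl
    have h6 : C S ((e b).1 : V) ((e a).2 : V) := (e b).1.2 _
    have h7 := (h6.add' h4.symm).symm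
    exact h7.of_eq rfl (w_addl (key b))
  · rintro ⟨-, h3⟩
    have h3' : C S ((e a).2 : V) ((e b).2 : V) := h3
    have h4 : C S ((e a).1 : V) b := (e a).1.2 b
    have h5 : C S ((e b).1 : V) ((e a).2 : V) := (e b).1.2 _
    have h6 : C S ((e a).2 : V) b := (h5.symm.add h3').of_eq rfl (key b).symm
    exact (h4.add' h6).of_eq (key a).symm rfl

end data

/-- a symmetric form on a quaternionic structure -/
noncomputable def formOf (S : QStruct) (hneg : S.neg = 1) (τ : S.G → S.G → S.G → ZMod 2)
    (h1 : ∀ a b x y, τ a b (x * y) = τ a b x + τ a b y) (h2 : ∀ a b x, τ a b x = τ a x b)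
    (h3 : ∀ a b c d, S.q a b = S.q c d ↔ ∀ x, τ a b x = τ c d x) :
    Form (Pool.Agent.AST.toD S hneg) := by
  have h4 : ∀ a b x, τ a b x = τ b a x := fun a b x => (h3 a b b a).1 (S.qs2 a b) x
  have h1' : ∀ a x y b, τ a (x * y) b = τ a x b + τ a y b := fun a x y b => by
    rw [h2, h1, h2 a b x, h2 a b y]
  have h1'' : ∀ x y a b, τ (x * y) a b = τ x a b + τ y a b := fun x y a b => by
    rw [h4, h1', h4 a x, h4 a y]
  exact
    { t := lin (fun a => lin (fun b => lin (fun x =>
          τ (Additive.toMul a) (Additive.toMul b) (Additive.toMul x))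
          fun x y => h1 _ _ _ _)
          fun x y => LinearMap.ext fun z => h1' _ _ _ _)
          fun x y => LinearMap.ext fun z => LinearMap.ext fun w => h1'' _ _ _ _
      symm := fun x y => LinearMap.ext fun z => h4 _ _ _
      symm' := fun x y z => h2 _ _ _
      eq := fun a b c d => by
        refine (h3 (Additive.toMul a) (Additive.toMul b) (Additive.toMul c)
          (Additive.toMul d)).trans ⟨fun h => LinearMap.ext fun x => h _, fun h x =>
            LinearMap.congr_fun h (Additive.ofMul x)⟩ }

theorem final_of (hm : Stmt_main) : Stmt_final := by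
  intro S hf hneg τ h1 h2 h3
  have hf : Finite (Additive S.G) := inferInstanceAs (Finite S.G)
  exact etz_form hm rfl (formOf S hneg τ h1 h2 h3) S (Pool.Agent.AST.qof S hneg)

theorem final_proof : Stmt_final := final_of main_proof

end Pool.Agent.TOYV
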