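import Pool.Agent.TOYV.Att

/-!
Fourier analysis of `2 ^ (-rho)` for linked alternating trilinear forms: any two functionals have a common slot, and
a functional is determined by its slots.
-/

set_option linter.unusedSectionVars false
set_option linter.unusedVariables false

namespace Pool.Agent.TOYV

open Pool.Agent.ESL Finset
open scoped Classical

variable {V : Type} [AddCommGroup V] [Module (ZMod 2) V] [Fintype V]

namespace Tri

variable (T : Tri V)

theorem mu_pos' (η : D V) : 0 < T.mu η := by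
  obtain ⟨x, y, h⟩ := att T η
  apply T.mu_pos η x
  intro v hv
  rw [← h, T.symm', hv]; rfl

/-- any two functionals have a common slot -/
theorem common_slot (c c' : D V) : ∃ x, x ∈ T.S c ∧ x ∈ T.S c' := by
  have h1 : 0 < ∑ τ : D V, T.mu τ * T.mu (τ + c) * T.mu (τ + c') :=
    sum_pos (fun τ _ => mul_pos (mul_pos (T.mu_pos' _) (T.mu_pos' _)) (T.mu_pos' _)) ⟨0, mem_univ _⟩
  rw [T.tri] at h1
  have hD : (0 : ℚ) < (Fintype.card (D V) : ℚ) := by
    have : 0 < Fintype.card (D V) := Fintype.card_pos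
    exact_mod_cast this
  have h3 := (mul_pos_iff_of_pos_left hD).1 h1
  have h4 : ∑ x, (∑ v ∈ T.vx x, sg (c v)) * (∑ w ∈ T.vx x, sg (c' w)) =
      (2 ^ fr V : ℚ) * ∑ v, ∑ w, sg (c v) * sg (c' w) * (T.gg v * T.gg w * T.gg (v + w)) := by
    rw [T.moment, mul_sum]
    apply sum_congr rfl
    intro v _
    rw [mul_sum]
    apply sum_congr rfl
    intro w _
    rw [T.card_gg]
    ring
  have h5 : 0 < ∑ x, (∑ v ∈ T.vx x, sg (c v)) * (∑ w ∈ T.vx x, sg (c' w)) := by
    rw [h4]
    exact mul_pos (by positivity) h3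
  by_contra hcon
  push Not at hcon
  have h6 : ∑ x, (∑ v ∈ T.vx x, sg (c v)) * (∑ w ∈ T.vx x, sg (c' w)) = 0 := by
    apply sum_eq_zero
    intro x _
    rw [T.ind_qx, T.ind_qx]
    by_cases q1 : c ∈ T.qx x
    · by_cases q2 : c' ∈ T.qx x
      · exfalso
        exact hcon x (by rw [mem_S]; exact mem_qx.1 q1) (by rw [mem_S]; exact mem_qx.1 q2)
      · rw [if_neg q2, mul_zero]
    · rw [if_neg q1, zero_mul]
  rw [h6] at h5
  exact lt_irrefl _ h5

/-- twisted autocorrelation -/
noncomputable def hh (φ : D V) (x : V) : ℚ := ∑ y, T.gg y * T.gg (x + y) * sg (φ y)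

theorem hh_eq (φ : D V) (x : V) : (2 ^ fr V : ℚ) * T.gg x * T.hh φ x =
    ∑ z ∈ T.vx x, if z ∈ T.S φ then ((T.vx z).card : ℚ) else 0 := by
  have e1 : (2 ^ fr V : ℚ) * T.gg x * T.hh φ x = ∑ y, ((T.vx x ∩ T.vx y).card : ℚ) * sg (φ y) := by
    unfold hh
    rw [mul_sum]
    apply sum_congr rfl
    intro y _
    rw [T.card_gg]
    ring
  have e2 : ∀ y, ((T.vx x ∩ T.vx y).card : ℚ) * sg (φ y) =
      ∑ z ∈ T.vx x, if T.t z y = 0 then sg (φ y) else 0 := by
    intro y
    rw [← sum_filter, sum_const, nsmul_eq_mul]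
    congr 2
    apply congrArg
    ext z
    rw [mem_inter, mem_filter, mem_vx, mem_vx, T.comm (x := y)]
  rw [e1, sum_congr rfl (fun y _ => e2 y), sum_comm]
  apply sum_congr rfl
  intro z _
  rw [← sum_filter]
  have e3 := T.ind_qx z φ
  have e4 : (φ ∈ T.qx z) ↔ z ∈ T.S φ := by rw [mem_S, mem_qx]
  unfold vx at e3 ⊢
  rw [e3]
  by_cases h : z ∈ T.S φ
  · rw [if_pos h, if_pos (e4.2 h)]
  · rw [if_neg h, if_neg (fun h' => h (e4.1 h'))]

theorem sum_tr (x : V) (f : V → ℚ) : ∑ y, f (x + y) = ∑ y, f y := by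
  apply sum_nbij' (fun y => x + y) (fun y => x + y)
  · intro y _; exact mem_univ _
  · intro y _; exact mem_univ _
  · intro y _; show x + (x + y) = y; rw [← add_assoc, add_self', zero_add]
  · intro y _; show x + (x + y) = y; rw [← add_assoc, add_self', zero_add]
  · intro y _; rfl

theorem hh_ft (φ θ : D V) : ∑ x, T.hh φ x * sg (θ x) = T.mu θ * T.mu (θ + φ) := by
  unfold hh
  have e1 : ∀ x, (∑ y, T.gg y * T.gg (x + y) * sg (φ y)) * sg (θ x) =
      ∑ y, T.gg y * sg (φ y) * (T.gg (x + y) * sg (θ x)) := by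
    intro x
    rw [sum_mul]
    apply sum_congr rfl
    intro y _
    ring
  rw [sum_congr rfl (fun x _ => e1 x), sum_comm]
  have e2 : ∀ y, (∑ x, T.gg y * sg (φ y) * (T.gg (x + y) * sg (θ x))) =
      T.mu θ * (T.gg y * sg ((θ + φ) y)) := by
    intro y
    rw [← mul_sum]
    have e3 : (∑ x, T.gg (x + y) * sg (θ x)) = sg (θ y) * T.mu θ := by
      rw [← sum_tr y (fun x => T.gg (x + y) * sg (θ x))]
      unfold mu
      rw [mul_sum]
      apply sum_congr rfl
      intro x _
      have h1 : y + x + y = x := by rw [add_comm y x, add_assoc, add_self', add_zero]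
      rw [h1, map_add, sg_add]
      ring
    rw [e3, LinearMap.add_apply, sg_add]
    ring
  rw [sum_congr rfl (fun y _ => e2 y), ← mul_sum]
  rfl

theorem hh_pos (x : V) : 0 < T.hh 0 x := by
  unfold hh
  apply sum_pos
  · intro y _
    rw [LinearMap.zero_apply, sg_zero, mul_one]
    exact mul_pos (T.gg_pos _) (T.gg_pos _)
  · exact ⟨0, mem_univ _⟩

theorem sq_ft (x : V) : 0 < ∑ θ : D V, T.mu θ ^ 2 * sg (θ x) := by
  have e1 : ∀ θ : D V, T.mu θ ^ 2 * sg (θ x) = ∑ y, T.hh 0 y * sg (θ (y + x)) := by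
    intro θ
    have h := T.hh_ft 0 θ
    rw [add_zero] at h
    rw [pow_two, ← h, sum_mul]
    apply sum_congr rfl
    intro y _
    rw [map_add, sg_add]
    ring
  rw [sum_congr rfl (fun θ _ => e1 θ), sum_comm]
  have e2 : ∀ y, (∑ θ : D V, T.hh 0 y * sg (θ (y + x))) =
      if y = x then T.hh 0 x * (Fintype.card (D V) : ℚ) else 0 := by
    intro y
    rw [← mul_sum, sum_sg_dual']
    by_cases h : y = x
    · rw [if_pos h, if_pos (by rw [h, add_self']), h]
    · rw [if_neg h, if_neg (fun h' => h (eq_of_add h')), mul_zero]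
  rw [sum_congr rfl (fun y _ => e2 y), sum_ite_eq' univ x, if_pos (mem_univ _)]
  have hD : (0 : ℚ) < (Fintype.card (D V) : ℚ) := by
    have : 0 < Fintype.card (D V) := Fintype.card_pos
    exact_mod_cast this
  exact mul_pos (T.hh_pos x) hD

/-- a functional is determined by its slots -/
theorem S_inj {a b : D V} (h : T.S a = T.S b) : a = b := by
  have h1 : ∀ x, T.hh a x = T.hh b x := by
    intro x
    have e1 := T.hh_eq a x
    have e2 := T.hh_eq b x
    rw [h, ← e2] at e1
    have hp : (2 ^ fr V : ℚ) * T.gg x ≠ 0 := ne_of_gt (mul_pos (by positivity) (T.gg_pos x))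
    exact mul_left_cancel₀ hp e1
  have h2 : ∀ θ, T.mu (θ + a) = T.mu (θ + b) := by
    intro θ
    have e1 := T.hh_ft a θ
    have e2 := T.hh_ft b θ
    rw [sum_congr rfl (fun x _ => by rw [h1 x]), e2] at e1
    exact (mul_left_cancel₀ (ne_of_gt (T.mu_pos' θ)) e1).symm
  have h3 : ∀ θ, T.mu (θ + (a + b)) = T.mu θ := by
    intro θ
    have e := h2 (θ + a)
    rw [add_assoc, add_assoc, add_self', add_zero] at e
    exact e.symm
  have h4 : a + b = 0 := by
    apply LinearMap.ext
    intro x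
    have e1 : (∑ θ : D V, T.mu θ ^ 2 * sg (θ x)) =
        sg ((a + b) x) * ∑ θ : D V, T.mu θ ^ 2 * sg (θ x) := by
      rw [mul_sum]
      apply sum_nbij' (fun θ => θ + (a + b)) (fun θ => θ + (a + b))
      · intro θ _; exact mem_univ _
      · intro θ _; exact mem_univ _
      · intro θ _; exact add_add_self' θ (a + b)
      · intro θ _; exact add_add_self' θ (a + b)
      · intro θ _
        rw [h3]
        have e5 : (θ + (a + b)) x = θ x + (a + b) x := rfl
        rw [e5, sg_add]
        have : sg ((a + b) x) * sg ((a + b) x) = 1 := by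
          rcases zm ((a + b) x) with e | e <;> rw [e]
          · rw [sg_zero]; norm_num
          · rw [sg_one]; norm_num
        calc T.mu θ ^ 2 * sg (θ x) = (sg ((a + b) x) * sg ((a + b) x)) * (T.mu θ ^ 2 * sg (θ x)) := by
              rw [this, one_mul]
          _ = sg ((a + b) x) * (T.mu θ ^ 2 * (sg (θ x) * sg ((a + b) x))) := by ring
    have e2 := T.sq_ft x
    rcases zm ((a + b) x) with e | e
    · rw [e]; rfl
    · exfalso
      rw [e, sg_one] at e1
      linarith
  exact eq_of_add h4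

end Tri

end Pool.Agent.TOYV
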