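import Pool.Agent.TOYV.Stmts

/-!
Linked alternating trilinear forms over `F_2`: induction.  A form satisfies the covering
hypothesis (toy world) or is an orthogonal sum of two smaller ones.  Problem MP_d26ff6_al.
-/

set_option autoImplicit false
set_option linter.unusedSectionVars false
set_option linter.unusedVariables false

namespace Pool.Agent.TOYV

open QS Pool.Agent.ESL Pool.Agent.ETCP Pool.Agent.ETG Pool.Agent.TOYW Finset
open Pool.Agent.Helper58.PLine (QData)

variable {V : Type} [AddCommGroup V] [Module (ZMod 2) V]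

namespace Tri

/-- the quaternionic data of a linked form -/
noncomputable def data (T : Tri V) : QData V (D V) where
  q := fun x y => T.t x y
  z := 0
  e := 0
  symm := T.symm
  add := fun x y w => by
    rw [map_add]
    constructor
    · intro h
      rw [h, ZModModule.add_self]
    · intro h
      exact eo h
  diag := fun x => by rw [add_zero, T.alt]
  link := by
    intro a b c d h
    obtain ⟨z, h1, h2⟩ := T.link a c b d h
    exact ⟨z, h1.symm, by rw [h2, h]⟩

theorem data_c (T : Tri V) (x y : V) : C T.data x y ↔ T.t x y = 0 := Iff.rfl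

theorem data_lz (T : Tri V) : LZ (C T.data) := lz_data (S := T.data) rfl

/-- `t x y` vanishes at an element commuting with `x` -/
theorem val0 (T : Tri V) {x y v : V} (h : T.t x v = 0) : T.t x y v = 0 := by
  rw [T.symm' x y v, h]
  rfl

theorem data_g (T : Tri V) (hc : Cov T) {x y : V} (hxy : T.t x y ≠ 0) (v : V) :
    T.t x y v = 0 ↔ G T.data x y v := by
  constructor
  · intro h
    obtain ⟨s, a, h1, h2⟩ := hc (T.t x y) hxy ⟨x, y, rfl⟩ v h
    exact ⟨s, a, h1, h2⟩
  · rintro ⟨s, u, h1, h2⟩
    have h1' : T.t s u = T.t x y := h1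
    have h2' : T.t s v = 0 := h2
    rw [← h1']
    exact T.val0 h2'

theorem data_hyp (T : Tri V) (hc : Cov T) : GHyp T.data where
  he := rfl
  idx := by
    intro x y hxy
    have hxy' : T.t x y ≠ 0 := hxy
    exact ⟨T.t x y, hxy', T.data_g hc hxy'⟩
  inj := by
    intro a b c d h1 h2 h
    have h1' : T.t a b ≠ 0 := h1
    have h2' : T.t c d ≠ 0 := h2
    show T.t a b = T.t c d
    apply LinearMap.ext
    intro v
    have h3 : T.t a b v = 0 ↔ T.t c d v = 0 := by
      rw [T.data_g hc h1' v, T.data_g hc h2' v]
      exact h v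
    rcases w_z2 (T.t a b v) with h4 | h4
    · rw [h4, h3.1 h4]
    · rcases w_z2 (T.t c d v) with h5 | h5
      · rw [h3.2 h5] at h4
        exact absurd h4 zero_ne_one
      · rw [h4, h5]

section res

variable (T : Tri V) {A B : Submodule (ZMod 2) V} (hAB : IsCompl A B)
  (h0 : ∀ a ∈ A, ∀ b ∈ B, T.t a b = 0)

include hAB h0

theorem ext_val {a b c d : V} (ha : a ∈ A) (hc : c ∈ A)
    (h : ∀ v ∈ A, T.t a b v = T.t c d v) : T.t a b = T.t c d := by
  apply LinearMap.ext
  intro v
  have h1 : v ∈ A ⊔ B := by rw [hAB.sup_eq_top]; trivial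
  obtain ⟨r, hr, w, hw, rfl⟩ := Submodule.mem_sup.1 h1
  rw [map_add, map_add, h r hr, T.val0 (h0 a ha w hw), T.val0 (h0 c hc w hw)]

/-- restriction to an orthogonal summand -/
noncomputable def res : Tri A where
  t := lin (fun a : A => (T.t a).domRestrict₁₂ A A) fun a b => by
    apply LinearMap.ext
    intro x
    apply LinearMap.ext
    intro y
    simp only [Submodule.coe_add, map_add, LinearMap.domRestrict₁₂_apply, LinearMap.add_apply]
  symm := fun x y => by
    apply LinearMap.ext
    intro z
    show T.t x y z = T.t y x z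
    rw [T.symm]
  symm' := fun x y z => T.symm' x y z
  alt := fun x => by
    apply LinearMap.ext
    intro z
    show T.t x x z = 0
    rw [T.alt]
    rfl
  link := by
    intro x y a b h
    have h1 : T.t x a = T.t y b := T.ext_val hAB h0 x.2 y.2 fun v hv =>
      LinearMap.congr_fun h ⟨v, hv⟩
    obtain ⟨z, h2, h3⟩ := T.link x y a b h1
    have h4 : z ∈ A ⊔ B := by rw [hAB.sup_eq_top]; trivial
    obtain ⟨r, hr, w, hw, rfl⟩ := Submodule.mem_sup.1 h4
    rw [map_add, h0 x x.2 w hw, add_zero] at h2
    rw [map_add, h0 y y.2 w hw, add_zero] at h3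
    refine ⟨⟨r, hr⟩, ?_, ?_⟩
    · apply LinearMap.ext
      intro v
      show T.t x r v = T.t x a v
      rw [h2]
    · apply LinearMap.ext
      intro v
      show T.t y r v = T.t x a v
      rw [h3]
  nondeg := by
    intro x hx
    apply Subtype.ext
    apply T.nondeg
    intro y
    have h4 : y ∈ A ⊔ B := by rw [hAB.sup_eq_top]; trivial
    obtain ⟨r, hr, w, hw, rfl⟩ := Submodule.mem_sup.1 h4
    rw [map_add, h0 x x.2 w hw, add_zero]
    have h5 : T.t (x : V) r = T.t (x : V) 0 := T.ext_val hAB h0 x.2 x.2 fun v hv => by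
      rw [map_zero]
      exact LinearMap.congr_fun (hx ⟨r, hr⟩) ⟨v, hv⟩
    rw [h5, map_zero]

theorem res_zero (a b : A) : (T.res hAB h0).t a b = 0 ↔ T.t (a : V) b = 0 := by
  constructor
  · intro h
    have h5 : T.t (a : V) b = T.t (a : V) 0 := T.ext_val hAB h0 a.2 a.2 fun v hv => by
      rw [map_zero]
      exact LinearMap.congr_fun h ⟨v, hv⟩
    rw [h5, map_zero]
  · intro h
    apply LinearMap.ext
    intro v
    show T.t (a : V) b v = 0
    rw [h]
    rfl

end res

end Tri

/-- **Every linked alternating trilinear form over `F_2` is of elementary type.** -/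
theorem main_of (hstr : TOYW.Stmt_struct) (hd : Stmt_dec) : Stmt_main := by
  have a_qpr : Stmt_QPR := qpr_proof qex_proof qis_proof
  have key : ∀ n : ℕ, ∀ (V : Type) [AddCommGroup V] [Module (ZMod 2) V] [Fintype V] (T : Tri V),
      Fintype.card V = n → ETZ (fun x y => T.t x y = 0) := by
    intro n
    induction n using Nat.strong_induction_on with
    | _ n ih =>
      intro V _ _ _ T hn
      rcases hd V T with hc | ⟨A, B, hAB, hA, hB, h0⟩
      · exact etz_nd hstr (T.data_hyp hc) fun x hx => T.nondeg x hx
      · classical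
        have h0' : ∀ b ∈ B, ∀ a ∈ A, T.t b a = 0 := fun b hb a ha => by
          rw [T.symm]; exact h0 a ha b hb
        have lt : ∀ W : Submodule (ZMod 2) V, W ≠ ⊤ → Fintype.card W < n := by
          intro W hW
          rw [← hn]
          obtain ⟨x, hx⟩ : ∃ x, x ∉ W := by
            by_contra hh
            push Not at hh
            exact hW (Submodule.eq_top_iff'.2 hh)
          exact Fintype.card_subtype_lt hx
        have hA' : A ≠ ⊤ := fun h => hB (by
          have h1 := hAB.inf_eq_bot
          rwa [h, top_inf_eq] at h1)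
        have hB' : B ≠ ⊤ := fun h => hA (by
          have h1 := hAB.inf_eq_bot
          rwa [h, inf_top_eq] at h1)
        have eA := ih _ (lt A hA') A (T.res hAB h0) rfl
        have eB := ih _ (lt B hB') B (T.res hAB.symm h0') rfl
        let e := (Submodule.prodEquivOfIsCompl A B hAB).symm
        refine a_qpr V A B _ _ _ e.toAddEquiv (T.res hAB h0).data_lz
          (T.res hAB.symm h0').data_lz ?_ eA eB
        intro a b
        have key : ∀ v : V, v = ((e v).1 : V) + ((e v).2 : V) := by
          intro v
          have := (Submodule.prodEquivOfIsCompl A B hAB).apply_symm_apply v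
          rw [Submodule.coe_prodEquivOfIsCompl'] at this
          exact this.symm
        have h1 : T.t a b = T.t ((e a).1 : V) ((e b).1 : V) + T.t ((e a).2 : V) ((e b).2 : V) := by
          conv_lhs => rw [key a, key b]
          simp only [map_add, LinearMap.add_apply]
          rw [h0 _ (e a).1.2 _ (e b).2.2, h0' _ (e a).2.2 _ (e b).1.2, add_zero, zero_add]
        show T.t a b = 0 ↔ (T.res hAB h0).t (e a).1 (e b).1 = 0 ∧
          (T.res hAB.symm h0').t (e a).2 (e b).2 = 0
        rw [T.res_zero hAB h0, T.res_zero hAB.symm h0', h1]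
        constructor
        · intro h2
          have h3 : T.t ((e a).1 : V) ((e b).1 : V) = 0 := by
            have h4 := eo h2
            have h5 : T.t ((e a).1 : V) ((e b).1 : V) = T.t ((e a).1 : V) 0 :=
              T.ext_val hAB h0 (e a).1.2 (e a).1.2 fun v hv => by
                rw [map_zero, h4, T.symm' _ _ v, h0' _ (e a).2.2 v hv, LinearMap.zero_apply,
                  LinearMap.zero_apply]
            rw [h5, map_zero]
          exact ⟨h3, by rwa [h3, zero_add] at h2⟩
        · rintro ⟨h2, h3⟩
          rw [h2, h3, add_zero]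
  intro V _ _ _ T
  exact key _ V T rfl

end Pool.Agent.TOYV
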