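import Pool.Agent.TOYV.Proj
import Pool.Agent.TOYV.Ind

/-!
Linked alternating trilinear forms over `F_2` are of elementary type.
-/

namespace Pool.Agent.TOYV

theorem main_proof : Stmt_main := main_of TOYW.struct_proof dec_proof

end Pool.Agent.TOYV
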