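import Pool.Agent.TOYV.Four
import Pool.Agent.ETC.QSat2
import Pool.Agent.TOYW.Sym3

/-!
Primitive functionals of a linked alternating trilinear form.
-/

set_option linter.unusedSectionVars false
set_option linter.unusedVariables false

namespace Pool.Agent.TOYV

open Pool.Agent.ESL Finset
open Pool.Agent.Helper58.PLine (QData)
open scoped Classical

variable {V : Type} [AddCommGroup V] [Module (ZMod 2) V] [Fintype V]

namespace Tri

/-- the quaternionic data of a form -/
def qdata (T : Tri V) : QData V (D V) where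
  q := fun a b => T.t a b
  z := 0
  e := 0
  symm := T.symm
  add := fun x y w => by
    rw [T.tadd]
    constructor
    · intro h; rw [h, add_self']
    · intro h; exact eq_of_add h
  diag := fun x => by rw [add_zero]; exact T.alt x
  link := fun a b c d h => by
    obtain ⟨z, h1, h2⟩ := T.link a c b d h
    exact ⟨z, h1.symm, by rw [h2, h]⟩

variable (T : Tri V)

/-- `v ∈ D(t x y)` -/
theorem G_iff (x y v : V) : ETCP.G T.qdata x y v ↔ ∃ s ∈ T.S (T.t x y), T.t s v = 0 := by
  constructor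
  · rintro ⟨s, u, h1, h2⟩
    exact ⟨s, mem_S_of h1, h2⟩
  · rintro ⟨s, hs, h2⟩
    obtain ⟨u, hu⟩ := mem_S.1 hs
    exact ⟨s, u, hu, h2⟩

/-- the group `D(c)` -/
def Dc (c : D V) : Submodule (ZMod 2) V where
  carrier := {v | ∃ s ∈ T.S c, T.t s v = 0}
  add_mem' := by
    intro v w hv hw
    obtain ⟨x, y, rfl⟩ := att T c
    exact (T.G_iff x y _).1 (((T.G_iff x y v).2 hv).add ((T.G_iff x y w).2 hw))
  zero_mem' := by
    obtain ⟨x, y, rfl⟩ := att T c
    exact ⟨x, mem_S_of rfl, T.zero_right x⟩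
  smul_mem' := by
    intro r v hv
    rcases zm r with rfl | rfl
    · rw [zero_smul]
      obtain ⟨x, y, rfl⟩ := att T c
      exact ⟨x, mem_S_of rfl, T.zero_right x⟩
    · rw [one_smul]; exact hv

theorem mem_Dc {c : D V} {v : V} : v ∈ T.Dc c ↔ ∃ s ∈ T.S c, T.t s v = 0 := Iff.rfl

/-- the annihilator of `D(c)` -/
def Ec (c : D V) : Submodule (ZMod 2) (D V) := (T.Dc c).dualAnnihilator

theorem mem_Ec' {c e : D V} : e ∈ T.Ec c ↔ ∀ v ∈ T.Dc c, e v = 0 := by
  unfold Ec; rw [Submodule.mem_dualAnnihilator]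

theorem mem_Ec {c e : D V} : e ∈ T.Ec c ↔ ∀ s ∈ T.S c, s ∈ T.S e := by
  rw [T.mem_Ec']
  constructor
  · intro h s hs
    rw [S, mem_filter]
    refine ⟨mem_univ _, (T.qx_iff s e).2 fun v hv => h v ⟨s, hs, hv⟩⟩
  · rintro h v ⟨s, hs, hv⟩
    exact slot_ker (h s hs) hv

theorem self_mem_Ec (c : D V) : c ∈ T.Ec c := T.mem_Ec.2 fun s hs => hs

theorem Ec_le {c e : D V} (h : e ∈ T.Ec c) : T.Ec e ≤ T.Ec c := fun f hf =>
  T.mem_Ec.2 fun s hs => T.mem_Ec.1 hf s (T.mem_Ec.1 h s hs)

theorem Ec_inj {a b : D V} (h : T.Ec a = T.Ec b) : a = b := by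
  apply T.S_inj
  have h1 : b ∈ T.Ec a := h ▸ T.self_mem_Ec b
  have h2 : a ∈ T.Ec b := h ▸ T.self_mem_Ec a
  ext s
  exact ⟨T.mem_Ec.1 h1 s, T.mem_Ec.1 h2 s⟩

theorem Ec_lt {c e : D V} (h : e ∈ T.Ec c) (hne : e ≠ c) : T.Ec e < T.Ec c :=
  lt_of_le_of_ne (T.Ec_le h) fun h' => hne (T.Ec_inj h')

/-- primitive functionals -/
def Pr (c : D V) : Prop := c ≠ 0 ∧ ∀ e ∈ T.Ec c, e = 0 ∨ e = c

/-- every functional is a sum of primitives in `E(c)` -/
theorem mem_span_Pr (c : D V) : c ∈ Submodule.span (ZMod 2) {p | T.Pr p ∧ p ∈ T.Ec c} := by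
  have main : ∀ n : ℕ, ∀ c : D V, fr (T.Ec c) ≤ n → c ∈ Submodule.span (ZMod 2) {p | T.Pr p ∧ p ∈ T.Ec c} := by
    intro n
    induction n with
    | zero =>
      intro c hc
      have h1 : T.Ec c = ⊥ := by
        rw [← Submodule.finrank_eq_zero (R := ZMod 2)]
        exact Nat.le_zero.1 hc
      have h2 := T.self_mem_Ec c
      rw [h1, Submodule.mem_bot] at h2
      rw [h2]; exact Submodule.zero_mem _
    | succ n ih =>
      intro c hc
      by_cases h0 : c = 0
      · rw [h0]; exact Submodule.zero_mem _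
      by_cases hp : T.Pr c
      · exact Submodule.subset_span ⟨hp, T.self_mem_Ec c⟩
      · have : ∃ e ∈ T.Ec c, e ≠ 0 ∧ e ≠ c := by
          by_contra hcon
          push Not at hcon
          apply hp
          refine ⟨h0, fun e he => ?_⟩
          by_cases h1 : e = 0
          · exact Or.inl h1
          · exact Or.inr (hcon e he h1)
        obtain ⟨e, he, he0, hec⟩ := this
        have step : ∀ e ∈ T.Ec c, e ≠ c → e ∈ Submodule.span (ZMod 2) {p | T.Pr p ∧ p ∈ T.Ec c} := by
          intro e he hne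
          have h2 := T.Ec_lt he hne
          have h3 : fr (T.Ec e) < fr (T.Ec c) := Submodule.finrank_lt_finrank_of_lt h2
          have h4 := ih e (by omega)
          refine Submodule.span_mono ?_ h4
          rintro p ⟨hp1, hp2⟩
          exact ⟨hp1, T.Ec_le he hp2⟩
        have h5 : e + c ∈ T.Ec c := Submodule.add_mem _ he (T.self_mem_Ec c)
        have h6 : e + c ≠ c := fun h => he0 (by simpa using h)
        have h7 := Submodule.add_mem _ (step e he hec) (step (e + c) h5 h6)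
        have h8 : e + (e + c) = c := by rw [← add_assoc, add_self', zero_add]
        rwa [h8] at h7
  exact main _ c le_rfl

theorem Ec_add (a b : D V) : T.Ec (a + b) ≤ T.Ec a ⊔ T.Ec b := by
  obtain ⟨x, hxa, hxb⟩ := T.common_slot a b
  obtain ⟨y, rfl⟩ := mem_S.1 hxa
  obtain ⟨y', rfl⟩ := mem_S.1 hxb
  have h1 : T.Dc (T.t x y) ⊓ T.Dc (T.t x y') ≤ T.Dc (T.t x y + T.t x y') := by
    rintro v ⟨h1, h2⟩
    have g1 := TOYW.G_rot (S := T.qdata) rfl ((T.G_iff x y v).2 h1)
    have g2 := TOYW.G_rot (S := T.qdata) rfl ((T.G_iff x y' v).2 h2)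
    have g3 := TOYW.G_rot (S := T.qdata) rfl (g1.add g2)
    rw [T.mem_Dc, ← T.tadd]
    exact (T.G_iff x (y + y') v).1 g3
  unfold Ec
  calc (T.Dc (T.t x y + T.t x y')).dualAnnihilator
      ≤ (T.Dc (T.t x y) ⊓ T.Dc (T.t x y')).dualAnnihilator := Submodule.dualAnnihilator_anti h1
    _ = _ := Subspace.dualAnnihilator_inf_eq _ _

theorem mem_Ec_add {a b : D V} (ha : T.Pr a) (hb : T.Pr b) {e : D V} (he : e ∈ T.Ec (a + b)) :
    e = 0 ∨ e = a ∨ e = b ∨ e = a + b := by
  obtain ⟨u, hu, w, hw, rfl⟩ := Submodule.mem_sup.1 (T.Ec_add a b he)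
  rcases ha.2 u hu with rfl | rfl <;> rcases hb.2 w hw with rfl | rfl
  · left; rw [add_zero]
  · right; right; left; rw [zero_add]
  · right; left; rw [add_zero]
  · right; right; right; rfl

/-- non-commuting primitives have a primitive sum -/
theorem Pr_add {p p' : D V} (hp : T.Pr p) (hp' : T.Pr p') {x y y' : V} (h : T.t x y = p)
    (h' : T.t x y' = p') (h1 : T.t x y y' ≠ 0) : T.Pr (p + p') := by
  have e1 : p y' ≠ 0 := by rw [← h]; exact h1
  have e2 : p' y ≠ 0 := by rw [← h', T.symm']; exact h1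
  have e3 : p y = 0 := by rw [← h]; exact T.alt' x y
  have e4 : p' y' = 0 := by rw [← h']; exact T.alt' x y'
  have hs : y + y' ∈ T.Dc (p + p') := by
    refine ⟨y + y', mem_S_of' (x := x) ?_, T.alt _⟩
    rw [T.tadd, h, h']
  refine ⟨?_, fun e he => ?_⟩
  · intro h0
    have : p = p' := eq_of_add h0
    rw [this] at e1
    exact e1 e4
  · rcases T.mem_Ec_add hp hp' he with h2 | h2 | h2 | h2
    · exact Or.inl h2
    · exfalso
      have h3 := T.mem_Ec'.1 he _ hs
      rw [h2, map_add, e3, zero_add] at h3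
      exact e1 h3
    · exfalso
      have h3 := T.mem_Ec'.1 he _ hs
      rw [h2, map_add, e4, add_zero] at h3
      exact e2 h3
    · exact Or.inr h2

/-- the relation between primitives -/
def Rel (p p' : D V) : Prop := p = p' ∨ T.Pr (p + p')

theorem Rel.symm {p p' : D V} (h : T.Rel p p') : T.Rel p' p := by
  rcases h with h | h
  · exact Or.inl h.symm
  · exact Or.inr (by rw [add_comm]; exact h)

theorem Rel.trans {p p' p'' : D V} (hp : T.Pr p) (hp' : T.Pr p') (hp'' : T.Pr p'') (h : T.Rel p p')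
    (h' : T.Rel p' p'') : T.Rel p p'' := by
  rcases h with rfl | h
  · exact h'
  rcases h' with rfl | h'
  · exact Or.inr h
  by_cases e : p = p''
  · exact Or.inl e
  right
  have key : (p + p') + (p' + p'') = p + p'' := by
    rw [add_assoc, ← add_assoc p', add_self', zero_add]
  by_cases e1 : p + p'' = p'
  · rw [e1]; exact hp'
  refine ⟨fun h0 => e (eq_of_add h0), fun d hd => ?_⟩
  rcases T.mem_Ec_add hp hp'' hd with h1 | h1 | h1 | h1
  · exact Or.inl h1
  · rw [← key] at hd
    rcases T.mem_Ec_add h h' hd with h2 | h2 | h2 | h2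
    · exact Or.inl h2
    · exfalso
      rw [h1] at h2
      exact hp'.1 (by simpa using h2)
    · exfalso
      rw [h1] at h2
      exact e1 (by rw [h2, add_assoc, add_self', add_zero])
    · right
      rw [h2, key]
  · rw [← key] at hd
    rcases T.mem_Ec_add h h' hd with h2 | h2 | h2 | h2
    · exact Or.inl h2
    · exfalso
      rw [h1] at h2
      exact e1 (by rw [h2, ← add_assoc, add_self', zero_add])
    · exfalso
      rw [h1] at h2
      exact hp'.1 (by simpa using h2)
    · right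
      rw [h2, key]
  · exact Or.inr h1

/-- the class of `p₀` with `0` -/
def Wc {p₀ : D V} (h₀ : T.Pr p₀) : Submodule (ZMod 2) (D V) where
  carrier := {w | w = 0 ∨ (T.Pr w ∧ T.Rel w p₀)}
  add_mem' := by
    rintro a b (rfl | ⟨ha, ra⟩) (rfl | ⟨hb, rb⟩)
    · left; rw [add_zero]
    · right; rw [zero_add]; exact ⟨hb, rb⟩
    · right; rw [add_zero]; exact ⟨ha, ra⟩
    · rcases Rel.trans T ha h₀ hb ra (Rel.symm T rb) with rfl | hab
      · left; exact add_self' _
      · right
        refine ⟨hab, ?_⟩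
        have h1 : T.Rel (a + b) a := by
          right
          have : a + b + a = b := by rw [add_comm a b, add_assoc, add_self', add_zero]
          rw [this]; exact hb
        exact Rel.trans T hab ha h₀ h1 ra
  zero_mem' := Or.inl rfl
  smul_mem' := by
    intro r v hv
    rcases zm r with rfl | rfl
    · rw [zero_smul]; exact Or.inl rfl
    · rw [one_smul]; exact hv

variable {T}

theorem mem_Wc {p₀ : D V} {h₀ : T.Pr p₀} {w : D V} : w ∈ T.Wc h₀ ↔ w = 0 ∨ (T.Pr w ∧ T.Rel w p₀) := Iff.rfl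

theorem base_mem {p₀ : D V} (h₀ : T.Pr p₀) : p₀ ∈ T.Wc h₀ := Or.inr ⟨h₀, Or.inl rfl⟩

theorem mem_of_rel {p₀ : D V} {h₀ : T.Pr p₀} {w p : D V} (hw : w ∈ T.Wc h₀) (hw0 : w ≠ 0) (hp : T.Pr p)
    (h : T.Pr (w + p)) : p ∈ T.Wc h₀ := by
  rcases hw with h1 | ⟨h1, h2⟩
  · exact absurd h1 hw0
  · right
    refine ⟨hp, Rel.trans T hp h1 h₀ ?_ h2⟩
    right; rw [add_comm]; exact h

end Tri

end Pool.Agent.TOYV
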