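import Pool.Agent.TOYV.Prim

/-!
The projection attached to a class of primitive functionals; decomposition of linked alternating trilinear forms.
-/

set_option linter.unusedSectionVars false
set_option linter.unusedVariables false

namespace Pool.Agent.TOYV

open Pool.Agent.ESL Finset
open Pool.Agent.Helper58.PLine (QData)
open scoped Classical

variable {V : Type} [AddCommGroup V] [Module (ZMod 2) V] [Fintype V]

namespace Tri

variable {T : Tri V} {p₀ : D V} {h₀ : T.Pr p₀}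

/-- span of the primitives of `Q_x` outside the class -/
def Ux (h₀ : T.Pr p₀) (x : V) : Submodule (ZMod 2) (D V) :=
  Submodule.span (ZMod 2) {p | T.Pr p ∧ x ∈ T.S p ∧ p ∉ T.Wc h₀}

/-- span of the primitives of `E(c)` outside the class -/
def Uc (h₀ : T.Pr p₀) (c : D V) : Submodule (ZMod 2) (D V) :=
  Submodule.span (ZMod 2) {p | T.Pr p ∧ p ∈ T.Ec c ∧ p ∉ T.Wc h₀}

theorem Uc_le {c : D V} {x : V} (hx : x ∈ T.S c) : Uc h₀ c ≤ Ux h₀ x := by
  apply Submodule.span_mono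
  rintro p ⟨h1, h2, h3⟩
  exact ⟨h1, T.mem_Ec.1 h2 x hx, h3⟩

theorem orth {x y : V} (hy : T.t x y ∈ T.Wc h₀) {u : D V} (hu : u ∈ Ux h₀ x) : u y = 0 := by
  have h1 : Ux h₀ x ≤ LinearMap.ker (Module.Dual.eval (ZMod 2) V y) := by
    apply Submodule.span_le.2
    rintro p ⟨hp, hxp, hpW⟩
    rw [SetLike.mem_coe, LinearMap.mem_ker, Module.Dual.eval_apply]
    obtain ⟨y', hy'⟩ := mem_S.1 hxp
    by_contra hcon
    have h2 : T.t x y y' ≠ 0 := by
      rw [← hy', T.symm'] at hcon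
      exact hcon
    by_cases h3 : T.t x y = 0
    · rw [h3] at h2; exact h2 rfl
    · rcases mem_Wc.1 hy with h4 | ⟨h4, h5⟩
      · exact h3 h4
      · exact hpW (mem_of_rel hy h3 hp (T.Pr_add h4 hp rfl hy' h2))
  have h2 := h1 hu
  rw [LinearMap.mem_ker, Module.Dual.eval_apply] at h2
  exact h2

theorem split_exists (h₀ : T.Pr p₀) (c : D V) : ∃ w ∈ T.Wc h₀, w ∈ T.Ec c ∧ c + w ∈ Uc h₀ c := by
  have h1 : Submodule.span (ZMod 2) {p | T.Pr p ∧ p ∈ T.Ec c} ≤ (T.Wc h₀ ⊓ T.Ec c) ⊔ Uc h₀ c := by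
    apply Submodule.span_le.2
    rintro p ⟨hp, hpc⟩
    by_cases h : p ∈ T.Wc h₀
    · exact Submodule.mem_sup_left ⟨h, hpc⟩
    · exact Submodule.mem_sup_right (Submodule.subset_span ⟨hp, hpc, h⟩)
  obtain ⟨w, hw, u, hu, huw⟩ := Submodule.mem_sup.1 (h1 (T.mem_span_Pr c))
  have e : c + w = u := by rw [← huw, add_comm w u, add_assoc, add_self', add_zero]
  refine ⟨w, hw.1, hw.2, ?_⟩
  rw [e]
  exact hu

theorem disj {x : V} {u : D V} (hx : x ∈ T.S u) (h1 : u ∈ T.Wc h₀) (h2 : u ∈ Ux h₀ x) : u = 0 := by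
  obtain ⟨y, rfl⟩ := mem_S.1 hx
  apply LinearMap.ext
  intro z
  rw [T.symm']
  obtain ⟨w, hw, hwE, hc⟩ := split_exists h₀ (T.t x z)
  have hxz : x ∈ T.S (T.t x z) := mem_S_of rfl
  have h3 : (T.t x z + w) y = 0 := orth h1 (Uc_le hxz hc)
  have hxw : x ∈ T.S w := T.mem_Ec.1 hwE x hxz
  obtain ⟨y1, rfl⟩ := mem_S.1 hxw
  have h4 : T.t x y y1 = 0 := orth hw h2
  rw [LinearMap.add_apply, T.symm' x y1 y, h4, add_zero] at h3
  rw [h3]; rfl

/-- the component of `c` in the class -/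
noncomputable def cW (h₀ : T.Pr p₀) (c : D V) : D V := (split_exists h₀ c).choose

theorem cW_mem (c : D V) : cW h₀ c ∈ T.Wc h₀ := (split_exists h₀ c).choose_spec.1

theorem cW_E (c : D V) : cW h₀ c ∈ T.Ec c := (split_exists h₀ c).choose_spec.2.1

theorem cW_U (c : D V) : c + cW h₀ c ∈ Uc h₀ c := (split_exists h₀ c).choose_spec.2.2

theorem slot_cW {c : D V} {x : V} (hx : x ∈ T.S c) : x ∈ T.S (cW h₀ c) := T.mem_Ec.1 (cW_E c) x hx

theorem S_add {c c' : D V} {x : V} (h : x ∈ T.S c) (h' : x ∈ T.S c') : x ∈ T.S (c + c') := by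
  obtain ⟨y, rfl⟩ := mem_S.1 h
  obtain ⟨y', rfl⟩ := mem_S.1 h'
  exact mem_S_of (y := y + y') (T.tadd _ _ _)

theorem cW_unique {c w : D V} {x : V} (hx : x ∈ T.S c) (hw : w ∈ T.Wc h₀) (hxw : x ∈ T.S w)
    (hu : c + w ∈ Ux h₀ x) : cW h₀ c = w := by
  have h1 : cW h₀ c + w ∈ T.Wc h₀ := Submodule.add_mem _ (cW_mem c) hw
  have h2 : x ∈ T.S (cW h₀ c + w) := S_add (slot_cW hx) hxw
  have h3 : cW h₀ c + w ∈ Ux h₀ x := by
    have := Submodule.add_mem _ (Uc_le hx (cW_U (h₀ := h₀) c)) hu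
    have e : c + cW h₀ c + (c + w) = cW h₀ c + w := by
      rw [add_comm c (cW h₀ c), add_assoc, ← add_assoc c c w, add_self', zero_add]
    rwa [e] at this
  exact eq_of_add (disj h2 h1 h3)

theorem cW_add {c c' : D V} {x : V} (h : x ∈ T.S c) (h' : x ∈ T.S c') :
    cW h₀ (c + c') = cW h₀ c + cW h₀ c' := by
  apply cW_unique (S_add h h') (Submodule.add_mem _ (cW_mem c) (cW_mem c')) (S_add (slot_cW h) (slot_cW h'))
  have := Submodule.add_mem _ (Uc_le h (cW_U (h₀ := h₀) c)) (Uc_le h' (cW_U (h₀ := h₀) c'))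
  have e : c + cW h₀ c + (c' + cW h₀ c') = c + c' + (cW h₀ c + cW h₀ c') := by abel
  rwa [e] at this

theorem cW_of_mem {c : D V} (h : c ∈ T.Wc h₀) : cW h₀ c = c := by
  obtain ⟨x, y, hxy⟩ := att T c
  have hx : x ∈ T.S c := mem_S_of hxy
  apply cW_unique hx h hx
  rw [add_self']; exact Submodule.zero_mem _

/-- by the saturation theorem the maps `y ↦ (t x y)_W` are inner -/
theorem exists_pi (h₀ : T.Pr p₀) (x : V) : ∃ p, ∀ y, cW h₀ (T.t x y) = T.t p y := by
  have hP : ETC.Pairwise2 T.qdata (fun y => cW h₀ (T.t x y)) := by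
    intro y y'
    have hy : y ∈ T.S (T.t x y) := mem_S_of' rfl
    have hy' : y' ∈ T.S (T.t x y') := mem_S_of' rfl
    have hyy : y + y' ∈ T.S (T.t x (y + y')) := mem_S_of' rfl
    have hx : x ∈ T.S (T.t x y) := mem_S_of rfl
    have hx' : x ∈ T.S (T.t x y') := mem_S_of rfl
    obtain ⟨a, ha⟩ := mem_S.1 (slot_cW (h₀ := h₀) hy)
    obtain ⟨b, hb⟩ := mem_S.1 (slot_cW (h₀ := h₀) hy')
    obtain ⟨c, hc⟩ := mem_S.1 (slot_cW (h₀ := h₀) hyy)
    have hsum : cW h₀ (T.t x (y + y')) = cW h₀ (T.t x y) + cW h₀ (T.t x y') := by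
      rw [T.tadd]; exact cW_add hx hx'
    have h1 : T.t y (c + a) = T.t y' (c + b) := by
      apply eq_of_add
      rw [T.tadd, T.tadd, ha, hb]
      have h2 := T.tadd' y y' c
      rw [hc, hsum] at h2
      have e : T.t y c + cW h₀ (T.t x y) + (T.t y' c + cW h₀ (T.t x y')) =
          (T.t y c + T.t y' c) + (cW h₀ (T.t x y) + cW h₀ (T.t x y')) := by abel
      rw [e, ← h2, add_self']
    obtain ⟨z, h3, h4⟩ := T.link y y' (c + a) (c + b) h1
    have g1 : T.t y (c + z) = cW h₀ (T.t x y) := by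
      rw [T.tadd, h3, T.tadd, ha, ← add_assoc, add_self', zero_add]
    have g2 : T.t y' (c + z) = cW h₀ (T.t x y') := by
      rw [T.tadd, h4, h1, T.tadd, hb, ← add_assoc, add_self', zero_add]
    refine ⟨c + z, g1.symm, g2.symm, ?_⟩
    show cW h₀ (T.t x (y + y')) = T.t (y + y') (c + z)
    rw [T.tadd', g1, g2, hsum]
  obtain ⟨p, hp⟩ := ETC.saturation hP
  refine ⟨p, fun y => ?_⟩
  rw [T.symm p y]
  exact hp y

noncomputable def piF (h₀ : T.Pr p₀) (x : V) : V := (exists_pi h₀ x).choose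

theorem piF_spec (x y : V) : T.t (piF h₀ x) y = cW h₀ (T.t x y) := ((exists_pi h₀ x).choose_spec y).symm

theorem nondeg' {x y : V} (h : ∀ z, T.t x z = T.t y z) : x = y := by
  apply eq_of_add
  apply T.nondeg
  intro z
  rw [T.tadd', h z, add_self']

theorem piF_add (x y : V) : piF h₀ (x + y) = piF h₀ x + piF h₀ y := by
  apply nondeg' (T := T)
  intro z
  rw [piF_spec, T.tadd', T.tadd', piF_spec, piF_spec]
  exact cW_add (x := z) (mem_S_of' rfl) (mem_S_of' rfl)

theorem piF_idem (x : V) : piF h₀ (piF h₀ x) = piF h₀ x := by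
  apply nondeg' (T := T)
  intro z
  rw [piF_spec, piF_spec]
  exact cW_of_mem (cW_mem _)

/-- the projection -/
noncomputable def pi (h₀ : T.Pr p₀) : V →ₗ[ZMod 2] V where
  toFun := piF h₀
  map_add' := piF_add
  map_smul' := by
    intro r x
    rcases zm r with rfl | rfl
    · have h := piF_add (h₀ := h₀) 0 0
      rw [add_zero] at h
      rw [zero_smul, RingHom.id_apply, zero_smul]
      have h2 := congrArg (fun z => z + piF h₀ 0) h
      simp only [add_self', zero_add] at h2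
      exact h2.symm
    · rw [one_smul, RingHom.id_apply, one_smul]

theorem pi_apply (x : V) : pi h₀ x = piF h₀ x := rfl

theorem pi_compl (h₀ : T.Pr p₀) : IsCompl (LinearMap.range (pi h₀)) (LinearMap.ker (pi h₀)) := by
  constructor
  · rw [Submodule.disjoint_def]
    rintro x ⟨y, rfl⟩ hx
    rw [LinearMap.mem_ker] at hx
    have h1 : pi h₀ (pi h₀ y) = pi h₀ y := piF_idem y
    rw [← h1, hx]
  · rw [codisjoint_iff, eq_top_iff]
    intro x _
    rw [Submodule.mem_sup]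
    refine ⟨pi h₀ x, ⟨x, rfl⟩, pi h₀ x + x, ?_, ?_⟩
    · have h1 : pi h₀ (pi h₀ x) = pi h₀ x := piF_idem x
      rw [LinearMap.mem_ker, map_add, h1, add_self']
    · rw [← add_assoc, add_self', zero_add]

theorem pi_orth {a b : V} (ha : a ∈ LinearMap.range (pi h₀)) (hb : b ∈ LinearMap.ker (pi h₀)) :
    T.t a b = 0 := by
  obtain ⟨x, rfl⟩ := ha
  rw [LinearMap.mem_ker] at hb
  have h2 : cW h₀ (T.t x b) = T.t (piF h₀ b) x := by rw [piF_spec, T.symm]
  rw [pi_apply, piF_spec, h2]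
  rw [pi_apply] at hb
  rw [hb, T.zero_left]

end Tri

theorem dec_proof : Stmt_dec := by
  intro V _ _ _ T
  by_cases hall : ∀ c : D V, c ≠ 0 → T.Pr c
  · left
    intro c hc _ b hb
    have h1 : b ∈ T.Dc c := by
      rw [← Subspace.forall_mem_dualAnnihilator_apply_eq_zero_iff (T.Dc c) b]
      intro e he
      rcases (hall c hc).2 e he with rfl | rfl
      · rfl
      · exact hb
    obtain ⟨s, hs, hsb⟩ := h1
    obtain ⟨a, ha⟩ := Tri.mem_S.1 hs
    exact ⟨s, a, ha, hsb⟩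
  · right
    push Not at hall
    obtain ⟨c, hc0, hc⟩ := hall
    have : ∃ p, T.Pr p := by
      by_contra hcon
      push Not at hcon
      have h1 := T.mem_span_Pr c
      have h2 : {p | T.Pr p ∧ p ∈ T.Ec c} = ∅ := by
        ext p
        constructor
        · rintro ⟨h, -⟩; exact absurd h (hcon p)
        · intro h; exact absurd h (Set.notMem_empty p)
      rw [h2, Submodule.span_empty, Submodule.mem_bot] at h1
      exact hc0 h1
    obtain ⟨p₀, h₀⟩ := this
    refine ⟨LinearMap.range (Tri.pi h₀), LinearMap.ker (Tri.pi h₀), Tri.pi_compl h₀, ?_, ?_,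
      fun a ha b hb => Tri.pi_orth ha hb⟩
    · intro h
      obtain ⟨x, y, hxy⟩ := att T p₀
      have h1 : Tri.pi h₀ x ∈ LinearMap.range (Tri.pi h₀) := ⟨x, rfl⟩
      rw [h, Submodule.mem_bot] at h1
      have h2 := Tri.piF_spec (h₀ := h₀) x y
      rw [← Tri.pi_apply, h1, T.zero_left, hxy, Tri.cW_of_mem (Tri.base_mem h₀)] at h2
      exact h₀.1 h2.symm
    · intro h
      obtain ⟨x, y, hxy⟩ := att T c
      have h1 : Tri.pi h₀ x + x ∈ LinearMap.ker (Tri.pi h₀) := by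
        have h1 : Tri.pi h₀ (Tri.pi h₀ x) = Tri.pi h₀ x := Tri.piF_idem x
        rw [LinearMap.mem_ker, map_add, h1, add_self']
      rw [h, Submodule.mem_bot] at h1
      have h2 : Tri.pi h₀ x = x := eq_of_add h1
      have h3 := Tri.piF_spec (h₀ := h₀) x y
      rw [← Tri.pi_apply, h2, hxy] at h3
      have h4 : c ∈ T.Wc h₀ := by rw [h3]; exact Tri.cW_mem c
      rcases Tri.mem_Wc.1 h4 with h5 | ⟨h5, -⟩
      · exact hc0 h5
      · exact hc h5

end Pool.Agent.TOYV
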