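import Pool.Agent.TOYV.Defs
import Pool.Agent.TOYW.Wrap

/-!
Linked alternating trilinear forms over `F_2`: elementary type.  Problem MP_d26ff6_al.
-/

namespace Pool.Agent.TOYV

open Pool.Agent.ETG

/-- the structure of a linked form is of elementary type -/
def Stmt_main : Prop :=
  ∀ (V : Type) [AddCommGroup V] [Module (ZMod 2) V] [Fintype V] (T : Tri V),
    ETZ (fun x y => T.t x y = 0)

/-- the final theorem -/
def Stmt_final : Prop :=
  ∀ (S : QS.QStruct) [Finite S.G] (_ : S.neg = 1) (τ : S.G → S.G → S.G → ZMod 2)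
    (_ : ∀ a b x y, τ a b (x * y) = τ a b x + τ a b y) (_ : ∀ a b x, τ a b x = τ a x b)
    (_ : ∀ a b c d, S.q a b = S.q c d ↔ ∀ x, τ a b x = τ c d x), QS.ElemType S

end Pool.Agent.TOYV
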